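import Pool.Agent.Helper95.KZ.Goals
import Pool.Agent.Helper74.NW.ZED

set_option autoImplicit false

namespace Pool.Agent.Helper47.KZ

open Pool.Agent.Helper52.Wq2 Pool.Agent.Helper61.NW Pool.Agent.Helper95.KZ
open Pool.Agent.Helper74.NW (Rel combine kn_of Rel.symm Rel.mono Rel.finite)

universe u

theorem rel_of_conn {W : Type u} {G : SimpleGraph W} {s Y : Set W} (h : Conn G s) (hY : s ⊆ Y)
    {x y : W} (hx : x ∈ s) (hy : y ∈ s) : Relation.ReflTransGen (Rel G Y) x y := by
  have := h.2 {y | y ∈ s ∧ Relation.ReflTransGen (Rel G Y) x y} (fun _ h => h.1)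
    ⟨x, hx, Relation.ReflTransGen.refl⟩ (fun a ha b hb hab =>
      ⟨hb, ha.2.tail ⟨hab, hY ha.1, hY hb⟩⟩) hy
  exact this.2

theorem rel_trans {Γ : Type u} [Group Γ] {S : Set Γ} (hS : IsGen S) {s Y : Set Γ} (g : Γ)
    {x y : Γ} (h : Relation.ReflTransGen (Rel (cay S) s) x y)
    (hY : ∀ u ∈ s, g * u ∈ Y) : Relation.ReflTransGen (Rel (cay S) Y) (g * x) (g * y) := by
  refine Relation.ReflTransGen.lift (fun u => g * u) ?_ _ _ h
  rintro u v ⟨h1, h2, h3⟩
  refine ⟨?_, hY _ h2, hY _ h3⟩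
  rw [cay_adj hS] at h1 ⊢
  simpa [mul_assoc] using h1

theorem exists_finite_path {Γ : Type u} [Group Γ] {S : Set Γ} (hS : Conn (cay S) Set.univ)
    (x y : Γ) : ∃ E : Set Γ, E.Finite ∧ Relation.ReflTransGen (Rel (cay S) E) x y := by
  have h := rel_of_conn hS (Set.Subset.refl _) (Set.mem_univ x) (Set.mem_univ y)
  obtain ⟨E, h1, _, _, h4⟩ := Rel.finite h (Set.mem_univ _)
  exact ⟨E, h1, h4⟩

theorem en (hslc : SlcStmt.{u}) (hfar : FarStmt.{u}) : EnStmt.{u} := by
  intro Γ _ S a b k B hP z l hzb hz hl hinv L hL hlL hJ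
  have hS := hP.gen
  have hcu : Conn (cay S) Set.univ := by
    have h1 := hslc Γ S a b k B hP (fun _ => True) ⟨0, trivial⟩ (fun _ _ _ _ _ _ _ => trivial)
    have h2 : Sl a b B (fun _ => True) = Set.univ := by
      ext g
      simp only [Set.mem_univ, iff_true]
      obtain ⟨i, j, x, hx, he⟩ := hP.cov g
      exact ⟨i, j, trivial, x, hx, he⟩
    rwa [h2] at h1
  have hab : ∀ i j : ℤ, b ^ i * a ^ j = a ^ j * b ^ i := by
    intro i j
    exact ((Commute.zpow_zpow (show Commute b a from hP.ab.symm) i j)).eq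
  have hsh : ∀ (m i j : ℤ) (x : Γ), b ^ m * (a ^ i * b ^ j * x) = a ^ i * b ^ (j + m) * x := by
    intro m i j x
    rw [← mul_assoc, ← mul_assoc, hab, mul_assoc (a ^ i), ← zpow_add, add_comm]
  have hzbc : ∀ (n : ℕ) (m : ℤ), b ^ m * z ^ n = z ^ n * b ^ m := by
    intro n m
    have : Commute (b ^ m) (z ^ n) :=
      Commute.pow_right (Commute.zpow_left (show Commute b z from hzb.symm) m) n
    exact this.eq
  obtain ⟨x0, hx0⟩ := hl.1
  obtain ⟨c, hc⟩ : ∃ c : ℤ, c = L + 1 := ⟨_, rfl⟩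
  obtain ⟨W, hWf, hWc, hWl, ⟨w1, hw1, i1, j1, hj1, y1, hy1, he1⟩,
    ⟨w2, hw2, i2, j2, hj2, y2, hy2, he2⟩⟩ := hJ c
  obtain ⟨E1, hE1f, hE1⟩ := exists_finite_path hcu x0 (b ^ c)
  obtain ⟨E2, hE2f, hE2⟩ := exists_finite_path hcu (b ^ (-c)) x0
  obtain ⟨L', hL', hF⟩ := hfar Γ S a b k B hP (W ∪ E1 ∪ E2 ∪ {1})
    (((hWf.union hE1f).union hE2f).union (Set.finite_singleton _))
  obtain ⟨M, hM⟩ : ∃ M : ℤ, M = 2 * (L + L' + c) + 1 := ⟨_, rfl⟩
  -- elements of the slabs and of the translates are not in `T`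
  have hband : ∀ (kk q : ℤ), M * kk + c ≤ q → q ≤ M * (kk + 1) - c → ∀ (p : ℤ), ∀ x ∈ B,
      ∀ n : ℤ, b ^ (-(M * n)) * (a ^ p * b ^ q * x) ∉ l := by
    intro kk q h1 h2 p x hx n h3
    rw [hsh] at h3
    have h4 := abs_le.1 (hlL _ _ _ hx h3)
    have h5 : M * kk + c - L ≤ M * n := by linarith
    have h6 : M * n ≤ M * (kk + 1) - c + L := by linarith
    have hMp : 0 < M := by rw [hM]; linarith
    have h7 : kk < n := by
      by_contra hcc
      push Not at hcc
      nlinarith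
    have h8 : n < kk + 1 := by
      by_contra hcc
      push Not at hcc
      nlinarith
    omega
  have htr : ∀ (kk n : ℤ), kk ≠ n → ∀ w ∈ W ∪ E1 ∪ E2 ∪ {1}, b ^ (-(M * n)) * (b ^ (M * kk) * w) ∉ l := by
    intro kk n hne w hw h3
    obtain ⟨p, q, x, hx, he⟩ := hP.cov w
    rw [← mul_assoc, ← zpow_add, he, hsh] at h3
    have h4 := abs_le.1 (hlL _ _ _ hx h3)
    rw [he] at hw
    have h5 := abs_le.1 (hF _ _ _ hx hw)
    have hMp : 0 < M := by rw [hM]; linarith
    rcases lt_or_gt_of_ne hne with h | h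
    · have : M * (kk + 1) ≤ M * n := by
        apply mul_le_mul_of_nonneg_left _ hMp.le
        omega
      nlinarith
    · have : M * (n + 1) ≤ M * kk := by
        apply mul_le_mul_of_nonneg_left _ hMp.le
        omega
      nlinarith
  apply kn_of
  refine combine z hz (fun i => {y | b ^ (-(M * (i : ℤ))) * y ∈ l}) (fun i => b ^ (M * (i : ℤ)) * x0)
    ?_ ?_ ?_ ?_ ?_
  · intro i
    change b ^ (-(M * (i : ℤ))) * (b ^ (M * (i : ℤ)) * x0) ∈ l
    rw [← mul_assoc, ← zpow_add, neg_add_cancel, zpow_zero, one_mul]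
    exact hx0
  · intro i y hy
    have h1 : Relation.ReflTransGen (Rel (cay S) l) x0 (b ^ (-(M * (i : ℤ))) * y) :=
      rel_of_conn hl (Set.Subset.refl _) hx0 hy
    have h2 := rel_trans hS (Y := {y | b ^ (-(M * (i : ℤ))) * y ∈ l}) (b ^ (M * (i : ℤ))) h1 (by
      intro u hu
      change b ^ (-(M * (i : ℤ))) * (b ^ (M * (i : ℤ)) * u) ∈ l
      rw [← mul_assoc, ← zpow_add, neg_add_cancel, zpow_zero, one_mul]
      exact hu)
    rw [← mul_assoc (b ^ (M * (i : ℤ))), ← zpow_add, add_neg_cancel, zpow_zero, one_mul] at h2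
    exact h2
  · intro i n y
    change b ^ (-(M * (i : ℤ))) * (z ^ n * y) ∈ l ↔ b ^ (-(M * (i : ℤ))) * y ∈ l
    rw [← mul_assoc, hzbc, mul_assoc]
    induction n with
    | zero => simp
    | succ n ih => rw [pow_succ', mul_assoc, hinv, ih]
  · intro i j hij
    rw [Set.disjoint_left]
    intro y hy1' hy2'
    change b ^ (-(M * (i : ℤ))) * y ∈ l at hy1'
    change b ^ (-(M * (j : ℤ))) * y ∈ l at hy2'
    obtain ⟨p, q, x, hx, he⟩ := hP.cov y
    rw [he, hsh] at hy1' hy2'
    have h3 := abs_le.1 (hlL _ _ _ hx hy1')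
    have h4 := abs_le.1 (hlL _ _ _ hx hy2')
    have hMp : 0 < M := by rw [hM]; linarith
    rcases lt_or_gt_of_ne hij with h | h
    · have : M * ((i:ℤ) + 1) ≤ M * j := by
        apply mul_le_mul_of_nonneg_left _ hMp.le
        exact_mod_cast h
      nlinarith
    · have : M * ((j:ℤ) + 1) ≤ M * i := by
        apply mul_le_mul_of_nonneg_left _ hMp.le
        exact_mod_cast h
      nlinarith
  · have key : ∀ i j : ℕ, i < j → ∃ E : Set Γ, E.Finite ∧
        Relation.ReflTransGen (Rel (cay S) E) (b ^ (M * (i : ℤ)) * x0) (b ^ (M * (j : ℤ)) * x0) ∧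
        ∀ k : ℕ, k ≠ i → k ≠ j → Disjoint E {y | b ^ (-(M * (k : ℤ))) * y ∈ l} := by
      intro i j hij
      let Y : Set Γ := {y | ∀ k : ℕ, k ≠ i → k ≠ j → b ^ (-(M * (k : ℤ))) * y ∉ l}
      -- bands
      have band : ∀ (kk : ℤ) (u v : Γ),
          u ∈ Sl a b B (fun q => M * kk + c ≤ q ∧ q ≤ M * (kk + 1) - c) →
          v ∈ Sl a b B (fun q => M * kk + c ≤ q ∧ q ≤ M * (kk + 1) - c) →
          Relation.ReflTransGen (Rel (cay S) Y) u v := by
        intro kk u v hu hv
        refine rel_of_conn (hslc Γ S a b k B hP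
          (fun q => M * kk + c ≤ q ∧ q ≤ M * (kk + 1) - c) ?_ ?_) ?_ hu hv
        · obtain ⟨_, q, hq, _⟩ := hu
          exact ⟨q, hq⟩
        · intro i j l' h1 h2 h3 h4
          exact ⟨by linarith [h1.1], by linarith [h2.2]⟩
        · rintro _ ⟨p, q, hq, x, hx, rfl⟩ n _ _
          exact hband kk q hq.1 hq.2 p x hx n
      have bpow : ∀ m : ℤ, b ^ m = a ^ (0 : ℤ) * b ^ m * 1 := by intro m; simp
      have hMp : 0 < M := by rw [hM]; linarith
      -- the ends
      have s1 : Relation.ReflTransGen (Rel (cay S) Y) (b ^ (M * (i : ℤ)) * x0)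
          (b ^ (M * (i : ℤ) + c)) := by
        rw [zpow_add]
        refine rel_trans hS _ hE1 ?_
        intro u hu n hni _
        exact htr i n (by exact_mod_cast hni.symm) u (Or.inl (Or.inl (Or.inr hu)))
      have s4 : Relation.ReflTransGen (Rel (cay S) Y) (b ^ (M * (j : ℤ) - c))
          (b ^ (M * (j : ℤ)) * x0) := by
        rw [sub_eq_add_neg, zpow_add]
        refine rel_trans hS _ hE2 ?_
        intro u hu n _ hnj
        exact htr j n (by exact_mod_cast hnj.symm) u (Or.inl (Or.inr hu))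
      have s2 : ∀ kk : ℤ, Relation.ReflTransGen (Rel (cay S) Y) (b ^ (M * kk + c))
          (b ^ (M * (kk + 1) - c)) := by
        intro kk
        refine band kk _ _ ⟨0, M * kk + c, ⟨le_rfl, ?_⟩, 1, hP.one, bpow _⟩
          ⟨0, M * (kk + 1) - c, ⟨?_, le_rfl⟩, 1, hP.one, bpow _⟩
        · nlinarith
        · nlinarith
      have hj1L : j1 ≤ L' := by
        have : a ^ i1 * b ^ j1 * y1 ∈ W ∪ E1 ∪ E2 ∪ {1} := by
          rw [← he1]; exact Or.inl (Or.inl (Or.inl hw1))
        exact (abs_le.1 (hF _ _ _ hy1 this)).2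
      have hj2L : -L' ≤ j2 := by
        have : a ^ i2 * b ^ j2 * y2 ∈ W ∪ E1 ∪ E2 ∪ {1} := by
          rw [← he2]; exact Or.inl (Or.inl (Or.inl hw2))
        exact (abs_le.1 (hF _ _ _ hy2 this)).1
      have s3 : ∀ kk : ℕ, Relation.ReflTransGen (Rel (cay S) Y) (b ^ (M * (kk : ℤ) - c))
          (b ^ (M * (kk : ℤ) + c)) := by
        intro kk
        have t1 : Relation.ReflTransGen (Rel (cay S) Y) (b ^ (M * (kk : ℤ) - c))
            (b ^ (M * (kk : ℤ)) * w2) := by
          refine band ((kk : ℤ) - 1) _ _ ⟨0, M * kk - c, ⟨?_, ?_⟩, 1, hP.one, bpow _⟩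
            ⟨i2, j2 + M * kk, ⟨?_, ?_⟩, y2, hy2, by rw [he2, hsh]⟩
          · nlinarith
          · nlinarith
          · nlinarith
          · nlinarith
        have t2 : Relation.ReflTransGen (Rel (cay S) Y) (b ^ (M * (kk : ℤ)) * w2)
            (b ^ (M * (kk : ℤ)) * w1) := by
          refine rel_trans hS _ (rel_of_conn hWc (Set.Subset.refl _) hw2 hw1) ?_
          intro u hu n _ _
          by_cases hk : (kk : ℤ) = n
          · rw [← hk, ← mul_assoc, ← zpow_add, neg_add_cancel, zpow_zero, one_mul]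
            exact Set.disjoint_left.1 hWl hu
          · exact htr kk n hk u (Or.inl (Or.inl (Or.inl hu)))
        have t3 : Relation.ReflTransGen (Rel (cay S) Y) (b ^ (M * (kk : ℤ)) * w1)
            (b ^ (M * (kk : ℤ) + c)) := by
          refine band kk _ _ ⟨i1, j1 + M * kk, ⟨?_, ?_⟩, y1, hy1, by rw [he1, hsh]⟩
            ⟨0, M * kk + c, ⟨?_, ?_⟩, 1, hP.one, bpow _⟩
          · nlinarith
          · nlinarith
          · nlinarith
          · nlinarith
        exact (t1.trans t2).trans t3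
      have s5 : ∀ d : ℕ, Relation.ReflTransGen (Rel (cay S) Y) (b ^ (M * (i : ℤ) + c))
          (b ^ (M * ((i + d + 1 : ℕ) : ℤ) - c)) := by
        intro d
        induction d with
        | zero =>
          have := s2 i
          push_cast
          simpa using this
        | succ d ih =>
          refine (ih.trans (s3 _)).trans ?_
          have := s2 ((i + d + 1 : ℕ) : ℤ)
          have e : (((i + (d + 1) + 1 : ℕ)) : ℤ) = ((i + d + 1 : ℕ) : ℤ) + 1 := by push_cast; ring
          rw [e]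
          exact this
      have s6 : Relation.ReflTransGen (Rel (cay S) Y) (b ^ (M * (i : ℤ)) * x0)
          (b ^ (M * (j : ℤ)) * x0) := by
        refine (s1.trans ?_).trans s4
        have := s5 (j - i - 1)
        rwa [show i + (j - i - 1) + 1 = j by omega] at this
      have hxY : b ^ (M * (i : ℤ)) * x0 ∈ Y := by
        intro n hni _ h
        have h5 : b ^ (-(M * (n : ℤ))) * (b ^ (M * (i : ℤ)) * x0) ∈ l := h
        obtain ⟨p, q, x, hx, he⟩ := hP.cov x0
        have h6 : |q| ≤ L := hlL p q x hx (he ▸ hx0)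
        rw [← mul_assoc, ← zpow_add, he, hsh] at h5
        have h7 := abs_le.1 (hlL _ _ _ hx h5)
        have h8 := abs_le.1 h6
        rcases lt_or_gt_of_ne hni with h | h
        · have : M * ((n:ℤ) + 1) ≤ M * i := by
            apply mul_le_mul_of_nonneg_left _ hMp.le
            exact_mod_cast h
          nlinarith
        · have : M * ((i:ℤ) + 1) ≤ M * n := by
            apply mul_le_mul_of_nonneg_left _ hMp.le
            exact_mod_cast h
          nlinarith
      obtain ⟨E, hEf, hEY, _, hEp⟩ := Rel.finite s6 hxY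
      refine ⟨E, hEf, hEp, ?_⟩
      intro n hni hnj
      rw [Set.disjoint_left]
      intro y hy hy'
      exact hEY hy n hni hnj hy'
    intro i j hij
    rcases lt_or_gt_of_ne hij with h | h
    · exact key i j h
    · obtain ⟨E, h1, h2, h3⟩ := key j i h
      exact ⟨E, h1, Rel.symm h2, fun k hk1 hk2 => h3 k hk2 hk1⟩

end Pool.Agent.Helper47.KZ
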